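import Pool.Agent.Q181.WI.Kill

/-! Weak interpolation sets of order `k` of the largest possible density. -/

set_option autoImplicit false

open MeasureTheory Filter Topology Set

namespace Pool.Agent.Q181.WI

universe u

open Classical in
/-- indicator of `S` -/
noncomputable def ind (S : Set ℕ) (i : ℕ) : ℝ := if i ∈ S then 1 else 0

theorem ind_nonneg (S : Set ℕ) (i : ℕ) : 0 ≤ ind S i := by
  unfold ind; split_ifs <;> norm_num

theorem ind_le (S : Set ℕ) (i : ℕ) : ind S i ≤ 1 := by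
  unfold ind; split_ifs <;> norm_num

theorem sum_ind_le (S : Set ℕ) (c N : ℕ) : ∑ i ∈ Finset.range N, ind S (c + i) ≤ N := by
  calc ∑ i ∈ Finset.range N, ind S (c + i) ≤ ∑ i ∈ Finset.range N, (1 : ℝ) :=
        Finset.sum_le_sum fun i _ => ind_le S _
    _ = N := by simp

theorem sum_ind_nonneg (S : Set ℕ) (c N : ℕ) : 0 ≤ ∑ i ∈ Finset.range N, ind S (c + i) :=
  Finset.sum_nonneg fun i _ => ind_nonneg S _

/-- dense intervals can be found far away -/
theorem far {S : Set ℕ} {κ : ℝ}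
    (hd : ∀ δ : ℝ, 0 < δ → ∀ N₀ : ℕ, ∃ N, N₀ ≤ N ∧ ∃ m,
      (κ - δ) * N ≤ ∑ i ∈ Finset.range N, ind S (m + i))
    {δ : ℝ} (hδ : 0 < δ) (K N₀ : ℕ) : ∃ c, K ≤ c ∧ ∃ N, N₀ ≤ N ∧
      (κ - δ) * N ≤ ∑ i ∈ Finset.range N, ind S (c + i) := by
  obtain ⟨N₁, hN₁⟩ := exists_nat_gt (2 * K / δ)
  obtain ⟨N, hN, m, hm⟩ := hd (δ / 2) (by positivity) (max (N₀ + K) N₁)
  have hN1 : N₀ + K ≤ N := (le_max_left _ _).trans hN
  have hN2 : N₁ ≤ N := (le_max_right _ _).trans hN
  have hN3 : (K : ℝ) ≤ δ / 2 * N := by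
    have h1 : 2 * (K : ℝ) / δ ≤ N := hN₁.le.trans (by exact_mod_cast hN2)
    rw [div_le_iff₀ hδ] at h1
    linarith
  rcases le_or_gt K m with h | h
  · refine ⟨m, h, N, by omega, ?_⟩
    have h1 : (0 : ℝ) ≤ δ / 2 * N := by positivity
    linarith
  · obtain ⟨r, hr⟩ : ∃ r, K = m + r := ⟨K - m, by omega⟩
    refine ⟨K, le_rfl, N - r, by omega, ?_⟩
    rcases le_or_gt (κ - δ) 0 with h0 | h0
    · have h1 : (0 : ℝ) ≤ ((N - r : ℕ) : ℝ) := Nat.cast_nonneg _
      exact (mul_nonpos_of_nonpos_of_nonneg h0 h1).trans (sum_ind_nonneg S _ _)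
    · have h2 : ∑ i ∈ Finset.range N, ind S (m + i) =
          ∑ i ∈ Finset.range r, ind S (m + i) + ∑ i ∈ Finset.range (N - r), ind S (K + i) := by
        have h3 : N = r + (N - r) := by omega
        conv_lhs => rw [h3]
        rw [Finset.sum_range_add]
        congr 1
        refine Finset.sum_congr rfl fun i _ => ?_
        rw [hr, add_assoc]
      have h4 := sum_ind_le S m r
      have h5 : (r : ℝ) ≤ K := by exact_mod_cast (by omega : r ≤ K)
      have h6 : ((N - r : ℕ) : ℝ) ≤ N := by exact_mod_cast Nat.sub_le N r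
      have h7 : (κ - δ) * ((N - r : ℕ) : ℝ) ≤ (κ - δ) * N := mul_le_mul_of_nonneg_left h6 h0.le
      linarith

/-- a bump at `j` -/
noncomputable def bump (j : ℕ) (z : ℂ) : ℝ := max 0 (1 - 2 * ‖z - j‖)

theorem bump_cont (j : ℕ) : Continuous (bump j) := by
  unfold bump
  exact continuous_const.max (continuous_const.sub
    (continuous_const.mul (continuous_id.sub continuous_const).norm))

theorem bump_nonneg (j : ℕ) (z : ℂ) : 0 ≤ bump j z := le_max_left _ _

theorem bump_le (j : ℕ) (z : ℂ) : bump j z ≤ 1 := by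
  unfold bump
  refine max_le (by norm_num) ?_
  have := norm_nonneg (z - j)
  linarith

theorem bump_self (j : ℕ) : bump j (j : ℂ) = 1 := by
  unfold bump
  simp

theorem bump_sum (k : ℕ) (z : ℂ) : ∑ j ∈ Finset.range k, bump j z ≤ 1 := by
  by_cases h : ∃ j ∈ Finset.range k, ‖z - j‖ < 1 / 2
  · obtain ⟨j, hj, hz⟩ := h
    rw [Finset.sum_eq_single_of_mem j hj]
    · exact bump_le j z
    · intro i _ hij
      unfold bump
      rw [max_eq_left]
      by_contra hcon
      push Not at hcon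
      have h1 : ‖z - i‖ < 1 / 2 := by linarith
      have h2 : ‖((i : ℂ) - j)‖ < 1 := by
        have h3 : ((i : ℂ) - j) = (z - j) - (z - i) := by ring
        rw [h3]
        exact (norm_sub_le _ _).trans_lt (by linarith)
      have h4 : ((i : ℂ) - j) = (((i : ℤ) - (j : ℤ) : ℤ) : ℂ) := by push_cast; ring
      rw [h4, Complex.norm_intCast] at h2
      have h5 : |((i : ℤ) - (j : ℤ))| < 1 := by exact_mod_cast h2
      rw [Int.abs_lt_one_iff] at h5
      apply hij
      omega
  · push Not at h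
    have h1 : ∀ j ∈ Finset.range k, bump j z = 0 := by
      intro j hj
      have := h j hj
      unfold bump
      exact max_eq_left (by linarith)
    rw [Finset.sum_eq_zero h1]
    norm_num

/-- A weak interpolation set of order `k ≥ 2` with upper Banach density at least `1 / k` would be
piecewise syndetic. -/
theorem ps_of_density {k : ℕ} (hk : 2 ≤ k) {S : Set ℕ} (hW : WeakInterp.{u} k S)
    (hd : ∀ δ : ℝ, 0 < δ → ∀ N₀ : ℕ, ∃ N, N₀ ≤ N ∧ ∃ m,
      (1 / (k : ℝ) - δ) * N ≤ ∑ i ∈ Finset.range N, ind S (m + i)) : PiecewiseSyndetic S := by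
  have hk0 : (0 : ℝ) < k := by exact_mod_cast (by omega : 0 < k)
  have hfar := fun (n K : ℕ) => far hd (δ := 1 / ((n : ℝ) + 1)) (by positivity) K (n + 1)
  choose st hst ln hln hden using hfar
  -- the ends of the intervals
  let B : ℕ → ℕ := fun n => Nat.rec 0 (fun n r => st n r + ln n r) n
  have hB : ∀ n, B (n + 1) = st n (B n) + ln n (B n) := fun n => rfl
  obtain ⟨s, hs⟩ : ∃ s : ℕ → ℕ, ∀ n, s n = st n (B n) := ⟨fun n => st n (B n), fun _ => rfl⟩
  obtain ⟨L, hL⟩ : ∃ L : ℕ → ℕ, ∀ n, L n = ln n (B n) := ⟨fun n => ln n (B n), fun _ => rfl⟩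
  have hBs : ∀ n, B n ≤ s n := fun n => by rw [hs]; exact hst n (B n)
  have hLn : ∀ n, n + 1 ≤ L n := fun n => by rw [hL]; exact hln n (B n)
  have hsB : ∀ n, s n + L n = B (n + 1) := fun n => by rw [hs, hL, hB]
  have hstep : ∀ n, s n + L n ≤ s (n + 1) := fun n => by rw [hsB]; exact hBs (n + 1)
  have hdens : ∀ n : ℕ, (1 / (k : ℝ) - 1 / ((n : ℝ) + 1)) * L n ≤
      ∑ i ∈ Finset.range (L n), ind S (s n + i) := fun n => by
    rw [hs, hL]; exact hden n (B n)
  have hmono : StrictMono s := strictMono_nat_of_lt_succ fun n => by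
    have := hstep n; have := hLn n; omega
  obtain ⟨idx, hidx⟩ := exists_idx s hmono
  obtain ⟨X, _, _, _, _, T, hT, hUE, x, _, F, hF⟩ :=
    hW (fun i => idx i % k) (fun i _ => Nat.mod_lt _ (by omega))
  obtain ⟨ν, ⟨hν, hνT⟩, huniq⟩ := hUE
  have huniq' : ∀ μ : Measure X, IsProbabilityMeasure μ → μ.map T = μ → μ = ν :=
    fun μ h1 h2 => huniq μ ⟨h1, h2⟩
  let φ : ℕ → C(X, ℝ) := fun j => ⟨fun y => bump j (F y), (bump_cont j).comp F.continuous⟩
  -- values on S
  have hval : ∀ n j, n % k = j → ∀ i, i < L n → s n + i ∈ S → φ j (T^[s n + i] x) = 1 := by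
    intro n j hn i hi hiS
    have h1 := hF _ hiS
    have h2 : idx (s n + i) = n := hidx n _ (Nat.le_add_right _ _) (by have := hstep n; omega)
    show bump j (F (T^[s n + i] x)) = 1
    rw [h1, h2, hn]
    exact bump_self j
  have hnn : ∀ n j, n % k = j → ∀ i, i < L n → 0 ≤ φ j (T^[s n + i] x) - ind S (s n + i) := by
    intro n j hn i hi
    unfold ind
    split_ifs with hiS
    · rw [hval n j hn i hi hiS, sub_self]
    · rw [sub_zero]; exact bump_nonneg _ _
  have havg : ∀ n j, av T (φ j) (L n) (T^[s n] x) =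
      (∑ i ∈ Finset.range (L n), ind S (s n + i) +
        ∑ i ∈ Finset.range (L n), (φ j (T^[s n + i] x) - ind S (s n + i))) / L n := by
    intro n j
    unfold av
    rw [← Finset.sum_add_distrib]
    congr 1
    refine Finset.sum_congr rfl fun i _ => ?_
    rw [← Function.iterate_add_apply, add_comm i (s n)]
    ring
  have hLpos : ∀ n, (0 : ℝ) < L n := fun n => by
    have := hLn n
    exact_mod_cast (by omega : 0 < L n)
  -- residues occur
  have hres : ∀ j < k, ∀ N, ∃ n, N ≤ n ∧ n % k = j := by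
    intro j hj N
    refine ⟨N * k + j, by nlinarith, ?_⟩
    rw [Nat.mul_comm, Nat.mul_add_mod]
    exact Nat.mod_eq_of_lt hj
  have hJ1 : ∀ j < k, 1 / (k : ℝ) ≤ ∫ y, φ j y ∂ν := by
    intro j hj
    by_contra hcon
    push Not at hcon
    obtain ⟨ε, hε, hε1⟩ : ∃ ε : ℝ, 0 < ε ∧ ∫ y, φ j y ∂ν + 2 * ε ≤ 1 / (k : ℝ) :=
      ⟨(1 / (k : ℝ) - ∫ y, φ j y ∂ν) / 2, by linarith, by linarith⟩
    obtain ⟨N₀, hN₀⟩ := uniform T hT ν huniq' (φ j) hε
    obtain ⟨N₁, hN₁⟩ := exists_nat_one_div_lt hε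
    obtain ⟨n, hn, hnj⟩ := hres j hj (max N₀ N₁)
    have h1 := hN₀ (L n) (by have := hLn n; have := le_max_left N₀ N₁; omega) (T^[s n] x)
    have h2 : 1 / (k : ℝ) - 1 / ((n : ℝ) + 1) ≤ av T (φ j) (L n) (T^[s n] x) := by
      rw [havg, le_div_iff₀ (hLpos n)]
      have h3 := hdens n
      have h4 : 0 ≤ ∑ i ∈ Finset.range (L n), (φ j (T^[s n + i] x) - ind S (s n + i)) :=
        Finset.sum_nonneg fun i hi => hnn n j hnj i (Finset.mem_range.1 hi)
      linarith
    have h5 : 1 / ((n : ℝ) + 1) ≤ 1 / ((N₁ : ℝ) + 1) := by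
      apply one_div_le_one_div_of_le (by positivity)
      have : (N₁ : ℝ) ≤ n := by exact_mod_cast (le_max_right N₀ N₁).trans hn
      linarith
    have h6 := (abs_lt.1 h1).2
    linarith
  have hJ0 : ∫ y, φ 0 y ∂ν ≤ 1 / (k : ℝ) := by
    have hI : ∀ j, Integrable (fun y => φ j y) ν := fun j =>
      (φ j).continuous.integrable_of_hasCompactSupport (HasCompactSupport.of_compactSpace _)
    have h1 : ∑ j ∈ Finset.range k, ∫ y, φ j y ∂ν ≤ 1 := by
      rw [← integral_finset_sum _ fun j _ => hI j]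
      calc ∫ y, ∑ j ∈ Finset.range k, φ j y ∂ν ≤ ∫ _y, (1 : ℝ) ∂ν :=
            integral_mono (integrable_finset_sum _ fun j _ => hI j) (integrable_const _)
              fun y => bump_sum k (F y)
        _ = 1 := by simp
    obtain ⟨k', rfl⟩ : ∃ k', k = k' + 1 := ⟨k - 1, by omega⟩
    rw [Finset.sum_range_succ'] at h1
    have h2 : ∑ j ∈ Finset.range k', (1 / ((k' + 1 : ℕ) : ℝ)) ≤
        ∑ j ∈ Finset.range k', ∫ y, φ (j + 1) y ∂ν :=
      Finset.sum_le_sum fun j hj => hJ1 (j + 1) (by have := Finset.mem_range.1 hj; omega)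
    rw [Finset.sum_const, Finset.card_range, nsmul_eq_mul] at h2
    have h3 : (k' : ℝ) * (1 / ((k' + 1 : ℕ) : ℝ)) + 1 / ((k' + 1 : ℕ) : ℝ) = 1 := by
      push_cast
      field_simp
    linarith
  -- the gap
  obtain ⟨g₀, hg₀⟩ := uniform T hT ν huniq' (φ 0) (ε := 1 / (2 * k)) (by positivity)
  obtain ⟨g, hgg⟩ : ∃ g, g = g₀ + 1 := ⟨_, rfl⟩
  have hg1 : (0 : ℝ) < g := by rw [hgg]; positivity
  have hg2 : ∀ y : X, (g : ℝ) / (2 * k) ≤ ∑ i ∈ Finset.range g, φ 0 (T^[i] y) := by
    intro y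
    have h1 := hg₀ g (by omega) y
    have h2 := (abs_lt.1 h1).1
    have h3 := hJ1 0 (by omega)
    have h4 : 1 / (2 * (k : ℝ)) ≤ av T (φ 0) g y := by
      have h5 : 1 / (k : ℝ) = 1 / (2 * k) + 1 / (2 * k) := by field_simp; norm_num
      linarith
    unfold av at h4
    rw [le_div_iff₀ hg1] at h4
    calc (g : ℝ) / (2 * k) = 1 / (2 * k) * g := by ring
      _ ≤ _ := h4
  refine ⟨g, ?_⟩
  by_contra hcon
  push Not at hcon
  obtain ⟨l, hl⟩ := hcon
  have hl0 : 0 < l := by
    obtain ⟨m, h1, h2, _⟩ := hl 0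
    omega
  -- contribution of the blocks
  have hblock : ∀ n, n % k = 0 → ∀ c, c + l ≤ L n →
      (g : ℝ) / (2 * k) ≤ ∑ i ∈ Finset.range l,
        (φ 0 (T^[s n + (c + i)] x) - ind S (s n + (c + i))) := by
    intro n hn c hc
    obtain ⟨m, h1, h2, h3⟩ := hl (s n + c)
    have h4 : ∑ i ∈ Finset.Ico (m - (s n + c)) (m - (s n + c) + g),
        (φ 0 (T^[s n + (c + i)] x) - ind S (s n + (c + i))) ≤ ∑ i ∈ Finset.range l,
        (φ 0 (T^[s n + (c + i)] x) - ind S (s n + (c + i))) := by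
      refine Finset.sum_le_sum_of_subset_of_nonneg ?_ fun i hi _ => ?_
      · intro i hi
        rw [Finset.mem_Ico] at hi
        rw [Finset.mem_range]
        omega
      · have := Finset.mem_range.1 hi
        exact hnn n 0 hn (c + i) (by omega)
    refine le_trans ?_ h4
    rw [Finset.sum_Ico_eq_sum_range]
    have h5 : m - (s n + c) + g - (m - (s n + c)) = g := by omega
    rw [h5]
    refine (hg2 (T^[m] x)).trans (le_of_eq ?_)
    refine Finset.sum_congr rfl fun i hi => ?_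
    have hi' := Finset.mem_range.1 hi
    have h6 : s n + (c + (m - (s n + c) + i)) = m + i := by omega
    rw [h6]
    have h7 : m + i ∉ S := fun h => by
      have := h3 (m + i) h (by omega)
      omega
    rw [← Function.iterate_add_apply, add_comm i m]
    unfold ind
    rw [if_neg h7, sub_zero]
  have hblocks : ∀ n, n % k = 0 → ∀ q : ℕ, q * l ≤ L n → (q : ℝ) * (g / (2 * k)) ≤
      ∑ i ∈ Finset.range (q * l), (φ 0 (T^[s n + i] x) - ind S (s n + i)) := by
    intro n hn q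
    induction q with
    | zero => intro _; simp
    | succ q ih =>
      intro hq
      have h1 : (q + 1) * l = q * l + l := by ring
      rw [h1] at hq ⊢
      rw [Finset.sum_range_add]
      have h2 := ih (by omega)
      have h3 := hblock n hn (q * l) (by omega)
      push_cast
      linarith
  -- the contradiction
  have hl0' : (0 : ℝ) < l := by exact_mod_cast hl0
  obtain ⟨κ, hκ⟩ : ∃ κ : ℝ, κ = g / (4 * k * l) := ⟨_, rfl⟩
  have hκ0 : 0 < κ := by rw [hκ]; positivity
  obtain ⟨N₀, hN₀⟩ := uniform T hT ν huniq' (φ 0) (ε := κ / 2) (by positivity)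
  obtain ⟨N₁, hN₁⟩ := exists_nat_one_div_lt (half_pos hκ0)
  obtain ⟨n, hn, hn0⟩ := hres 0 (by omega) (N₀ + N₁ + l)
  have h1 := hN₀ (L n) (by have := hLn n; omega) (T^[s n] x)
  have h2 : 1 / (k : ℝ) - 1 / ((n : ℝ) + 1) + κ ≤ av T (φ 0) (L n) (T^[s n] x) := by
    rw [havg, le_div_iff₀ (hLpos n)]
    have h3 := hdens n
    obtain ⟨q, hq⟩ : ∃ q, q = L n / l := ⟨_, rfl⟩
    have hql : q * l ≤ L n := by rw [hq]; exact Nat.div_mul_le_self _ _
    have hq1 : L n < (q + 1) * l := by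
      rw [hq, mul_comm]
      exact Nat.lt_mul_div_succ (L n) hl0
    have h4 := hblocks n hn0 q hql
    have h5 : ∑ i ∈ Finset.range (q * l), (φ 0 (T^[s n + i] x) - ind S (s n + i)) ≤
        ∑ i ∈ Finset.range (L n), (φ 0 (T^[s n + i] x) - ind S (s n + i)) := by
      refine Finset.sum_le_sum_of_subset_of_nonneg ?_ fun i hi _ => ?_
      · intro i hi
        rw [Finset.mem_range] at hi ⊢
        omega
      · exact hnn n 0 hn0 i (Finset.mem_range.1 hi)
    have h6 : κ * L n ≤ (q : ℝ) * (g / (2 * k)) := by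
      have h7 : (L n : ℝ) ≤ 2 * q * l := by
        have h8 : L n ≤ 2 * q * l := by
          have : 1 ≤ q := by
            rw [hq, Nat.one_le_div_iff hl0]
            have := hLn n
            omega
          nlinarith
        exact_mod_cast h8
      calc κ * L n ≤ κ * (2 * q * l) := mul_le_mul_of_nonneg_left h7 hκ0.le
        _ = (q : ℝ) * (g / (2 * k)) := by rw [hκ]; field_simp; ring
    linarith
  have h5 : 1 / ((n : ℝ) + 1) ≤ 1 / ((N₁ : ℝ) + 1) := by
    apply one_div_le_one_div_of_le (by positivity)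
    have : (N₁ : ℝ) ≤ n := by exact_mod_cast (by omega : N₁ ≤ n)
    linarith
  have h6 := (abs_lt.1 h1).2
  linarith

end Pool.Agent.Q181.WI
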