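import Pool.Agent.Q181.WI.UE

/-! Weak interpolation sets of order two for uniquely ergodic systems are not piecewise
syndetic. -/

set_option autoImplicit false

open MeasureTheory Filter Topology Set

namespace Pool.Agent.Q181.WI

universe u

/-- The system `(X, T)` is uniquely ergodic: exactly one `T`-invariant Borel probability. -/
def UniquelyErgodic {X : Type u} [MeasurableSpace X] (T : X → X) : Prop :=
  ∃! μ : Measure X, IsProbabilityMeasure μ ∧ μ.map T = μ

/-- `S` is a weak interpolation set of order `k` for the class of the uniquely ergodic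
topological dynamical systems. -/
def WeakInterp (k : ℕ) (S : Set ℕ) : Prop :=
  ∀ f : ℕ → ℕ, (∀ n ∈ S, f n < k) →
    ∃ (X : Type u) (_ : MetricSpace X) (_ : CompactSpace X) (_ : MeasurableSpace X)
      (_ : BorelSpace X) (T : X → X), Continuous T ∧ UniquelyErgodic T ∧
        ∃ x : X, Dense (range fun n : ℕ => T^[n] x) ∧
          ∃ F : C(X, ℂ), ∀ n ∈ S, F (T^[n] x) = (f n : ℂ)

/-- `S` is syndetic: for some `L` each interval of `L` consecutive positive integers meets `S`. -/
def Syndetic (S : Set ℕ) : Prop :=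
  ∃ L : ℕ, ∀ m : ℕ, 1 ≤ m → ∃ i ∈ S, m ≤ i ∧ i < m + L

/-- `S` is piecewise syndetic: for some `g` there are arbitrarily long intervals
`{c, ..., c + l - 1}` such that each subinterval of length `g` meets `S`. -/
def PiecewiseSyndetic (S : Set ℕ) : Prop :=
  ∃ g : ℕ, ∀ l : ℕ, ∃ c : ℕ, ∀ m, c ≤ m → m + g ≤ c + l → ∃ i ∈ S, m ≤ i ∧ i < m + g

theorem WeakInterp.mono {k l : ℕ} (h : k ≤ l) {S : Set ℕ} (hS : WeakInterp.{u} l S) :
    WeakInterp.{u} k S := fun f hf => hS f fun n hn => (hf n hn).trans_le h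

theorem Syndetic.piecewise {S : Set ℕ} (h : Syndetic S) : PiecewiseSyndetic S := by
  obtain ⟨L, hL⟩ := h
  exact ⟨L, fun l => ⟨1, fun m hm _ => hL m hm⟩⟩

/-- one block of values defeats all patterns -/
theorem kill {S : Set ℕ} {g t : ℕ} (ht : g * t + 1 < 2 ^ t) (b : ℕ)
    (hb : ∀ j < t, ∃ i ∈ S, b + j * g ≤ i ∧ i < b + (j + 1) * g) (w : ℕ → Bool) :
    ∃ h : ℕ → Bool, ∀ r ≤ g * t, ∃ i ∈ S, b ≤ i ∧ i < b + g * t ∧ h i ≠ w (i - b + r) := by
  choose! n hnS hn1 hn2 using hb
  let P : Fin (g * t + 1) → (Fin t → Bool) := fun r j => w (n j - b + r)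
  obtain ⟨u, hu⟩ : ∃ u : Fin t → Bool, ∀ r, P r ≠ u := by
    by_contra hcon
    push Not at hcon
    have hs : Function.Surjective P := hcon
    have h1 := Fintype.card_le_of_surjective P hs
    simp only [Fintype.card_fin, Fintype.card_fun, Fintype.card_bool] at h1
    omega
  have hinj : Function.Injective fun j : Fin t => n j := by
    intro j k hjk
    have hjk' : n j = n k := hjk
    by_contra hne
    have hne' : (j : ℕ) ≠ k := fun h => hne (Fin.ext h)
    rcases Nat.lt_or_gt_of_ne hne' with h | h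
    · have h1 := hn2 j j.2
      have h2 := hn1 k k.2
      have h3 : (j + 1 : ℕ) * g ≤ k * g := Nat.mul_le_mul_right g h
      omega
    · have h1 := hn2 k k.2
      have h2 := hn1 j j.2
      have h3 : (k + 1 : ℕ) * g ≤ j * g := Nat.mul_le_mul_right g h
      omega
  refine ⟨Function.extend (fun j : Fin t => n j) u fun _ => false, fun r hr => ?_⟩
  obtain ⟨j, hj⟩ := Function.ne_iff.1 (hu ⟨r, by omega⟩)
  have h1 := hn1 j j.2
  have h2 := hn2 j j.2
  have h3 : ((j : ℕ) + 1) * g ≤ g * t := by
    rw [mul_comm]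
    exact Nat.mul_le_mul_left g j.2
  refine ⟨n j, hnS j j.2, by omega, by omega, ?_⟩
  rw [hinj.extend_apply u (fun _ => false) j]
  exact fun h => hj h.symm

theorem exists_t (g : ℕ) : ∃ t : ℕ, g * t + 1 < 2 ^ t := by
  refine ⟨g + 3, ?_⟩
  induction g with
  | zero => norm_num
  | succ g ih =>
    rcases Nat.eq_zero_or_pos g with rfl | hg
    · norm_num
    · have h1 : (2 : ℕ) ^ (g + 1 + 3) = 2 * 2 ^ (g + 3) := by ring
      rw [h1]
      nlinarith

/-- a function constant on the intervals `[a n, a (n + 1))` -/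
theorem exists_idx (a : ℕ → ℕ) (ha : StrictMono a) :
    ∃ idx : ℕ → ℕ, ∀ n q, a n ≤ q → q < a (n + 1) → idx q = n := by
  refine ⟨fun q => Nat.findGreatest (fun n => a n ≤ q) q, fun n q h1 h2 => ?_⟩
  rw [Nat.findGreatest_eq_iff]
  refine ⟨(ha.id_le n).trans h1, fun _ => h1, fun m hm _ h3 => ?_⟩
  have h4 : a (n + 1) ≤ a m := ha.monotone hm
  omega

/-- a sequence hitting every element of a finite type infinitely often -/
theorem exists_cycle (W : Type*) [Fintype W] [Nonempty W] :
    ∃ e : ℕ → W, ∀ w : W, ∀ N : ℕ, ∃ n, N ≤ n ∧ e n = w := by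
  have hC : 0 < Fintype.card W := Fintype.card_pos
  refine ⟨fun n => (Fintype.equivFin W).symm ⟨n % Fintype.card W, Nat.mod_lt _ hC⟩,
    fun w N => ⟨N * Fintype.card W + (Fintype.equivFin W w : ℕ), ?_, ?_⟩⟩
  · have : N * 1 ≤ N * Fintype.card W := Nat.mul_le_mul_left N hC
    omega
  · have h1 : (N * Fintype.card W + (Fintype.equivFin W w : ℕ)) % Fintype.card W =
        (Fintype.equivFin W w : ℕ) := by
      rw [Nat.mul_comm, Nat.mul_add_mod]
      exact Nat.mod_eq_of_lt (Fintype.equivFin W w).2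
    have h2 : (⟨(N * Fintype.card W + (Fintype.equivFin W w : ℕ)) % Fintype.card W,
        Nat.mod_lt _ hC⟩ : Fin (Fintype.card W)) = Fintype.equivFin W w := Fin.ext h1
    simp only [h2, Equiv.symm_apply_apply]

/-- a partition of unity on `ℂ` -/
noncomputable def psi : Bool → ℂ → ℝ
  | true, z => min 1 (max 0 z.re)
  | false, z => 1 - min 1 (max 0 z.re)

theorem psi_cont (b : Bool) : Continuous (psi b) := by
  cases b
  · exact continuous_const.sub (continuous_const.min (continuous_const.max Complex.continuous_re))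
  · exact continuous_const.min (continuous_const.max Complex.continuous_re)

theorem psi_sum (z : ℂ) : ∑ b : Bool, psi b z = 1 := by
  rw [Fintype.sum_bool]
  simp [psi]

theorem psi_true_zero : psi true 0 = 0 := by simp [psi]

theorem psi_false_one : psi false 1 = 0 := by simp [psi]

/-- **Main lemma.** A weak interpolation set of order two for the class of the uniquely ergodic
systems is not piecewise syndetic. -/
theorem not_two {S : Set ℕ} (hS : PiecewiseSyndetic S) : ¬ WeakInterp.{u} 2 S := by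
  intro hW
  obtain ⟨g, hg⟩ := hS
  obtain ⟨t, ht⟩ := exists_t g
  have hg0 : 0 < g := by
    rcases Nat.eq_zero_or_pos g with rfl | h
    · obtain ⟨c, hc⟩ := hg 0
      obtain ⟨i, _, h1, h2⟩ := hc c le_rfl le_rfl
      omega
    · exact h
  have ht0 : 0 < t := by
    rcases Nat.eq_zero_or_pos t with rfl | h
    · simp at ht
    · exact h
  obtain ⟨M, hM⟩ : ∃ M, M = g * t := ⟨_, rfl⟩
  have hM0 : 0 < M := by rw [hM]; exact Nat.mul_pos hg0 ht0
  -- good blocks
  let Good : ℕ → Prop := fun q =>
    ∀ j < t, ∃ i ∈ S, q * M + j * g ≤ i ∧ i < q * M + (j + 1) * g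
  have hruns : ∀ l K : ℕ, ∃ q, K ≤ q ∧ ∀ q', q ≤ q' → q' < q + l → Good q' := by
    intro l K
    obtain ⟨c, hc⟩ := hg ((l + K + 2) * M)
    obtain ⟨D, hD⟩ : ∃ D, D = c / M := ⟨_, rfl⟩
    obtain ⟨R, hR⟩ : ∃ R, R = c % M := ⟨_, rfl⟩
    have h0 : M * D + R = c := by rw [hD, hR]; exact Nat.div_add_mod c M
    have h0' : R < M := by rw [hR]; exact Nat.mod_lt _ hM0
    refine ⟨D + 1 + K, by omega, fun q' h1 h2 j hj => ?_⟩
    have h3 : (D + 1 + K) * M ≤ q' * M := Nat.mul_le_mul_right M h1
    have h4 : (q' + 1) * M ≤ (D + 1 + K + l) * M := Nat.mul_le_mul_right M (by omega)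
    have h5 : (j + 1) * g ≤ M := by
      rw [hM, mul_comm]
      exact Nat.mul_le_mul_left g hj
    have e3 : (D + 1 + K) * M = M * D + M + K * M := by ring
    have e4 : (D + 1 + K + l) * M = M * D + M + K * M + l * M := by ring
    have e5 : (l + K + 2) * M = l * M + K * M + M + M := by ring
    have e6 : (q' + 1) * M = q' * M + M := by ring
    have e7 : (j + 1) * g = j * g + g := by ring
    have e8 : 0 ≤ K * M := Nat.zero_le _
    obtain ⟨i, hi, h6, h7⟩ := hc (q' * M + j * g) (by omega) (by omega)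
    exact ⟨i, hi, h6, by omega⟩
  -- the sequence of runs
  choose nxt hnxt1 hnxt2 using hruns
  let a : ℕ → ℕ := fun n => Nat.rec 0 (fun n r => nxt (n + 1) (r + n + 1)) n
  have ha_succ : ∀ n, a (n + 1) = nxt (n + 1) (a n + n + 1) := fun n => rfl
  have hastep : ∀ n, a n + n + 1 ≤ a (n + 1) := fun n => by
    rw [ha_succ]; exact hnxt1 _ _
  have ha : StrictMono a := strictMono_nat_of_lt_succ fun n => by have := hastep n; omega
  have hgood : ∀ n q, a n ≤ q → q < a n + n → Good q := by
    intro n q h1 h2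
    rcases n with _ | n
    · omega
    · rw [ha_succ] at h1 h2
      exact hnxt2 (n + 1) (a n + n + 1) q h1 h2
  obtain ⟨idx, hidx⟩ := exists_idx a ha
  obtain ⟨e, he⟩ := exists_cycle (Fin (2 * M) → Bool)
  let ext : (Fin (2 * M) → Bool) → ℕ → Bool := fun w i => if h : i < 2 * M then w ⟨i, h⟩ else false
  have hh : ∀ q, ∃ h : ℕ → Bool, Good q → ∀ r ≤ M, ∃ i ∈ S, q * M ≤ i ∧ i < q * M + M ∧
      h i ≠ ext (e (idx q)) (i - q * M + r) := by
    intro q
    by_cases hq : Good q
    · obtain ⟨h, hh⟩ := kill ht (q * M) hq (ext (e (idx q)))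
      refine ⟨h, fun _ r hr => ?_⟩
      rw [hM] at hr
      obtain ⟨i, h1, h2, h3, h4⟩ := hh r hr
      exact ⟨i, h1, h2, by rw [hM] at h3 ⊢; exact h3, h4⟩
    · exact ⟨fun _ => false, fun h => absurd h hq⟩
  choose h hh using hh
  obtain ⟨X, _, _, _, _, T, hT, hUE, x, _, F, hF⟩ :=
    hW (fun i => if h (i / M) i then 1 else 0) (fun i _ => by split_ifs <;> norm_num)
  obtain ⟨ν, ⟨hν, hνT⟩, huniq⟩ := hUE
  have huniq' : ∀ μ : Measure X, IsProbabilityMeasure μ → μ.map T = μ → μ = ν :=
    fun μ h1 h2 => huniq μ ⟨h1, h2⟩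
  -- the functions
  let Ψ : (Fin (2 * M) → Bool) → C(X, ℝ) := fun w =>
    ⟨fun y => ∏ p : Fin (2 * M), psi (w p) (F (T^[(p : ℕ)] y)), by
      refine continuous_finset_prod _ fun p _ => ?_
      exact (psi_cont _).comp (F.continuous.comp (hT.iterate _))⟩
  have hzero : ∀ w n m, e n = w → a n * M ≤ m → m + 2 * M ≤ (a n + n) * M → Ψ w (T^[m] x) = 0 := by
    intro w n m hw h1 h2
    have hd : M * (m / M) + m % M = m := Nat.div_add_mod m M
    have hd' : m % M < M := Nat.mod_lt _ hM0
    obtain ⟨q, hq⟩ : ∃ q, q = m / M + 1 := ⟨_, rfl⟩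
    have hqM : q * M = M * (m / M) + M := by rw [hq]; ring
    have hq1 : a n ≤ q := by
      have : a n ≤ m / M := (Nat.le_div_iff_mul_le hM0).2 h1
      omega
    have hq2 : q < a n + n := by
      by_contra hcon
      push Not at hcon
      have : (a n + n) * M ≤ q * M := Nat.mul_le_mul_right M hcon
      omega
    have hqidx : idx q = n := hidx n q hq1 (by have := hastep n; omega)
    obtain ⟨i, hiS, hi1, hi2, hi3⟩ := hh q (hgood n q hq1 hq2) (q * M - m) (by omega)
    have him : i - q * M + (q * M - m) = i - m := by omega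
    rw [him, hqidx, hw] at hi3
    have hi4 : i - m < 2 * M := by omega
    have hi5 : ext w (i - m) = w ⟨i - m, hi4⟩ := by simp only [ext, dif_pos hi4]
    rw [hi5] at hi3
    have hiq : i / M = q := by
      refine Nat.div_eq_of_lt_le hi1 ?_
      rw [Nat.add_mul, Nat.one_mul]; exact hi2
    have hFi := hF i hiS
    rw [hiq] at hFi
    show ∏ p : Fin (2 * M), psi (w p) (F (T^[(p : ℕ)] (T^[m] x))) = 0
    refine Finset.prod_eq_zero (Finset.mem_univ ⟨i - m, hi4⟩) ?_
    have hit : T^[i - m] (T^[m] x) = T^[i] x := by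
      rw [← Function.iterate_add_apply]
      congr 1
      omega
    show psi (w ⟨i - m, hi4⟩) (F (T^[i - m] (T^[m] x))) = 0
    rw [hit, hFi]
    cases hwp : w ⟨i - m, hi4⟩
    · have h3 : h q i = true := by
        rw [hwp] at hi3
        simpa using hi3
      rw [h3]
      simpa using psi_false_one
    · have h3 : h q i = false := by
        rw [hwp] at hi3
        simpa using hi3
      rw [h3]
      simpa using psi_true_zero
  have hint : ∀ w, ∫ y, Ψ w y ∂ν = 0 := by
    intro w
    by_contra hne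
    obtain ⟨N₀, hN₀⟩ := uniform T hT ν huniq' (Ψ w) (abs_pos.2 hne)
    obtain ⟨n, hn, hen⟩ := he w (N₀ + 3)
    have h1 := hN₀ ((n - 2) * M) (by nlinarith [Nat.sub_add_cancel (show 2 ≤ n by omega)])
      (T^[a n * M] x)
    have h2 : av T (Ψ w) ((n - 2) * M) (T^[a n * M] x) = 0 := by
      unfold av
      rw [Finset.sum_eq_zero, zero_div]
      intro i hi
      rw [Finset.mem_range] at hi
      rw [← Function.iterate_add_apply]
      refine hzero w n (i + a n * M) hen (by omega) ?_
      have h3 : (a n + n) * M = a n * M + (n - 2) * M + 2 * M := by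
        have : n = n - 2 + 2 := by omega
        calc (a n + n) * M = (a n + (n - 2 + 2)) * M := by rw [← this]
          _ = _ := by ring
      omega
    rw [h2, zero_sub, abs_neg] at h1
    exact lt_irrefl _ h1
  have hsum : ∑ w, ∫ y, Ψ w y ∂ν = 1 := by
    rw [← integral_finset_sum]
    · have h1 : ∀ y, ∑ w, Ψ w y = 1 := by
        intro y
        have h2 : ∏ p : Fin (2 * M), ∑ b : Bool, psi b (F (T^[(p : ℕ)] y)) = 1 := by
          simp only [psi_sum, Finset.prod_const_one]
        rw [Finset.prod_univ_sum, Fintype.piFinset_univ] at h2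
        exact h2
      simp only [h1, integral_const, probReal_univ, smul_eq_mul, mul_one]
    · intro w _
      exact (Ψ w).continuous.integrable_of_hasCompactSupport (HasCompactSupport.of_compactSpace _)
  simp only [hint, Finset.sum_const_zero] at hsum
  exact zero_ne_one hsum

end Pool.Agent.Q181.WI
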