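import Pool.Agent.Q181.WI.Dens

/-! The upper Banach density of weak interpolation sets. -/

set_option autoImplicit false

open MeasureTheory Filter Topology Set

namespace Pool.Agent.Q181.WI

universe u

/-- `d` is the upper Banach density
`lim_{N → ∞} sup_{m ≥ 0} |S ∩ {m + 1, ..., m + N}| / N` of `S`. -/
def HasUBD (S : Set ℕ) (d : ℝ) : Prop :=
  Tendsto (fun N : ℕ => ⨆ m : ℕ, ((S ∩ Set.Icc (m + 1) (m + N)).ncard : ℝ) / N) atTop (𝓝 d)

theorem ncard_eq (S : Set ℕ) (m N : ℕ) : ((S ∩ Set.Icc (m + 1) (m + N)).ncard : ℝ) =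
    ∑ i ∈ Finset.range N, ind S (m + 1 + i) := by
  classical
  have h1 : S ∩ Set.Icc (m + 1) (m + N) =
      ((Finset.Ico (m + 1) (m + 1 + N)).filter (· ∈ S) : Finset ℕ) := by
    ext i
    simp only [mem_inter_iff, mem_Icc, Finset.coe_filter, Finset.mem_Ico, mem_setOf_eq]
    constructor
    · rintro ⟨h1, h2, h3⟩; exact ⟨⟨h2, by omega⟩, h1⟩
    · rintro ⟨⟨h2, h3⟩, h1⟩; exact ⟨h1, h2, by omega⟩
  rw [h1, ncard_coe_finset, Finset.card_filter, Finset.sum_Ico_eq_sum_range]
  have h2 : m + 1 + N - (m + 1) = N := by omega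
  rw [h2]
  push_cast
  refine Finset.sum_congr rfl fun i _ => ?_
  unfold ind
  split_ifs <;> simp

/-- the upper Banach density exists -/
theorem exists_ubd (S : Set ℕ) : ∃ d, HasUBD S d := by
  let c : ℕ → ℕ → ℝ := fun N m => ∑ i ∈ Finset.range N, ind S (m + 1 + i)
  have hb : ∀ N, BddAbove (range (c N)) := fun N =>
    ⟨N, by rintro _ ⟨m, rfl⟩; exact sum_ind_le S (m + 1) N⟩
  let u : ℕ → ℝ := fun N => ⨆ m, c N m
  have hu : Subadditive u := by
    intro a b
    refine ciSup_le fun m => ?_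
    have h1 : c (a + b) m = c a m + c b (m + a) := by
      show ∑ i ∈ Finset.range (a + b), ind S (m + 1 + i) = _
      rw [Finset.sum_range_add]
      congr 1
      refine Finset.sum_congr rfl fun i _ => ?_
      congr 1
      omega
    rw [h1]
    exact add_le_add (le_ciSup (hb a) m) (le_ciSup (hb b) (m + a))
  have hnn : ∀ N, 0 ≤ u N := fun N => (sum_ind_nonneg S _ N).trans (le_ciSup (hb N) 0)
  refine ⟨hu.lim, ?_⟩
  have h2 := hu.tendsto_lim ⟨0, by
    rintro _ ⟨n, rfl⟩
    exact div_nonneg (hnn n) (Nat.cast_nonneg n)⟩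
  refine h2.congr fun N => ?_
  show (⨆ m, c N m) / N = ⨆ m : ℕ, ((S ∩ Set.Icc (m + 1) (m + N)).ncard : ℝ) / N
  simp only [ncard_eq]
  rw [div_eq_mul_inv, Real.iSup_mul_of_nonneg (by positivity)]
  simp only [div_eq_mul_inv]
  rfl

/-- **Theorem.** For `k ≥ 2` the upper Banach density of a weak interpolation set of order `k` for
the class of the uniquely ergodic systems is less than `1 / k`. -/
theorem density_lt {k : ℕ} (hk : 2 ≤ k) {S : Set ℕ} (hW : WeakInterp.{u} k S) :
    ∃ d, HasUBD S d ∧ d < 1 / (k : ℝ) := by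
  obtain ⟨d, hd⟩ := exists_ubd S
  refine ⟨d, hd, ?_⟩
  by_contra hcon
  push Not at hcon
  refine not_two (ps_of_density hk hW fun δ hδ N₀ => ?_) (hW.mono hk)
  have h1 : ∀ᶠ N : ℕ in atTop, 1 / (k : ℝ) - δ <
      ⨆ m : ℕ, ((S ∩ Set.Icc (m + 1) (m + N)).ncard : ℝ) / N :=
    hd.eventually_const_lt (by linarith)
  obtain ⟨N, hN, hN0⟩ := (h1.and (eventually_ge_atTop (max N₀ 1))).exists
  obtain ⟨m, hm⟩ := exists_lt_of_lt_ciSup hN
  have hNpos : (0 : ℝ) < N := by
    have := (le_max_right N₀ 1).trans hN0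
    exact_mod_cast (by omega : 0 < N)
  refine ⟨N, (le_max_left _ _).trans hN0, m + 1, ?_⟩
  rw [lt_div_iff₀ hNpos, ncard_eq] at hm
  exact hm.le

/-- for `k = 1` the density `1` is possible -/
theorem order_one : ∃ S : Set ℕ, S ⊆ {n | 1 ≤ n} ∧ WeakInterp.{u} 1 S ∧ HasUBD S 1 := by
  refine ⟨{n | 1 ≤ n}, subset_rfl, fun f hf => ?_, ?_⟩
  · refine ⟨PUnit, inferInstance, inferInstance, ⊤, ⟨borel_eq_top_of_discrete.symm⟩, id,
      continuous_id, ?_, PUnit.unit, ?_, 0, ?_⟩
    · refine ⟨@Measure.dirac PUnit ⊤ PUnit.unit, ⟨inferInstance, Measure.map_id⟩, ?_⟩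
      rintro μ ⟨hμ, -⟩
      ext s hs
      rcases s.eq_empty_or_nonempty with rfl | ⟨y, hy⟩
      · simp
      · have : s = univ := by ext z; simpa using hy
        rw [this, measure_univ, measure_univ]
    · intro y
      exact subset_closure ⟨0, rfl⟩
    · intro n hn
      have := hf n hn
      have h0 : f n = 0 := by omega
      rw [h0]
      simp
  · refine tendsto_const_nhds.congr' ?_
    filter_upwards [eventually_ge_atTop 1] with N hN
    have h1 : ∀ m : ℕ, (({n : ℕ | 1 ≤ n} ∩ Set.Icc (m + 1) (m + N)).ncard : ℝ) / N = 1 := by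
      intro m
      rw [ncard_eq]
      have h2 : ∀ i, ind {n : ℕ | 1 ≤ n} (m + 1 + i) = 1 := fun i => by
        unfold ind
        rw [if_pos]
        show 1 ≤ m + 1 + i
        omega
      simp only [h2, Finset.sum_const, Finset.card_range, nsmul_eq_mul, mul_one]
      exact div_self (by exact_mod_cast (by omega : N ≠ 0))
    simp only [h1, ciSup_const]

end Pool.Agent.Q181.WI
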