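import Mathlib

/-! Uniform convergence of ergodic averages of uniquely ergodic systems. -/

set_option autoImplicit false

open MeasureTheory Filter Topology Set

namespace Pool.Agent.Q181.WI

/-- averages along an orbit segment -/
noncomputable def av {X : Type*} (T : X → X) (φ : X → ℝ) (N : ℕ) (y : X) : ℝ :=
  (∑ i ∈ Finset.range N, φ (T^[i] y)) / N

section

variable {X : Type*} [MetricSpace X] [CompactSpace X] [MeasurableSpace X] [BorelSpace X]

/-- the empirical measure of an orbit segment -/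
noncomputable def emp (T : X → X) (N : ℕ) (y : X) : Measure X :=
  ((N : ENNReal)⁻¹) • ∑ i ∈ Finset.range N, Measure.dirac (T^[i] y)

theorem emp_prob (T : X → X) {N : ℕ} (hN : 0 < N) (y : X) :
    IsProbabilityMeasure (emp T N y) := by
  constructor
  unfold emp
  rw [Measure.smul_apply, Measure.coe_finset_sum, Finset.sum_apply]
  simp only [measure_univ, Finset.sum_const, Finset.card_range, nsmul_eq_mul, mul_one, smul_eq_mul]
  exact ENNReal.inv_mul_cancel (by exact_mod_cast hN.ne') (ENNReal.natCast_ne_top N)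

theorem emp_integral (T : X → X) {N : ℕ} (y : X) (φ : X → ℝ)
    (hφ : Continuous φ) : ∫ z, φ z ∂(emp T N y) = av T φ N y := by
  unfold emp av
  rw [integral_smul_measure]
  rw [integral_finset_sum_measure]
  · simp only [integral_dirac, ENNReal.toReal_inv, ENNReal.toReal_natCast, smul_eq_mul]
    rw [div_eq_inv_mul]
  · intro i _
    exact (integrable_dirac (by simp))

theorem av_comp (T : X → X) (φ : X → ℝ) {R : ℝ} (hR : ∀ y, |φ y| ≤ R) {N : ℕ} (hN : 0 < N)
    (y : X) : |av T (fun z => φ (T z)) N y - av T φ N y| ≤ 2 * R / N := by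
  unfold av
  have h1 : ∑ i ∈ Finset.range N, φ (T (T^[i] y)) = ∑ i ∈ Finset.range N, φ (T^[i + 1] y) := by
    refine Finset.sum_congr rfl fun i _ => ?_
    rw [Function.iterate_succ_apply']
  have h2 : ∑ i ∈ Finset.range N, φ (T^[i + 1] y) + φ (T^[0] y) =
      ∑ i ∈ Finset.range N, φ (T^[i] y) + φ (T^[N] y) := by
    rw [← Finset.sum_range_succ' (fun i => φ (T^[i] y)) N,
      Finset.sum_range_succ (fun i => φ (T^[i] y)) N]
  have hN' : (0 : ℝ) < N := by exact_mod_cast hN
  rw [← sub_div, abs_div, abs_of_pos hN']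
  apply div_le_div_of_nonneg_right _ hN'.le
  have h3 : ∑ i ∈ Finset.range N, φ (T (T^[i] y)) - ∑ i ∈ Finset.range N, φ (T^[i] y) =
      φ (T^[N] y) - φ (T^[0] y) := by
    rw [h1]; linarith
  rw [h3]
  have h4 := abs_sub (φ (T^[N] y)) (φ (T^[0] y))
  have h5 := hR (T^[N] y)
  have h6 := hR (T^[0] y)
  linarith

/-- uniform convergence of the averages of a uniquely ergodic system -/
theorem uniform (T : X → X) (hT : Continuous T) (ν : Measure X)
    (huniq : ∀ μ : Measure X, IsProbabilityMeasure μ → μ.map T = μ → μ = ν)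
    (φ : C(X, ℝ)) {ε : ℝ} (hε : 0 < ε) :
    ∃ N₀ : ℕ, ∀ N, N₀ ≤ N → ∀ y : X, |av T φ N y - ∫ z, φ z ∂ν| < ε := by
  by_contra hcon
  push Not at hcon
  choose N hN y hy using fun n : ℕ => hcon (n + 1)
  have hNpos : ∀ n, 0 < N n := fun n => lt_of_lt_of_le (Nat.succ_pos n) (hN n)
  let E : ℕ → ProbabilityMeasure X := fun n => ⟨emp T (N n) (y n), emp_prob T (hNpos n) (y n)⟩
  let U : Ultrafilter ℕ := Filter.hyperfilter ℕ
  have hU : (U : Filter ℕ) ≤ atTop := by
    rw [← Nat.cofinite_eq_atTop]
    exact Filter.hyperfilter_le_cofinite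
  obtain ⟨μ, -, hμ⟩ := isCompact_univ.ultrafilter_le_nhds (U.map E) (by simp)
  have hμ' : Tendsto E U (𝓝 μ) := hμ
  have hint : ∀ g : C(X, ℝ), Tendsto (fun n => av T g (N n) (y n)) U (𝓝 (∫ z, g z ∂(μ : Measure X))) := by
    intro g
    have h1 := (ProbabilityMeasure.tendsto_iff_forall_integral_tendsto.1 hμ')
      (BoundedContinuousFunction.mkOfCompact g)
    refine h1.congr fun n => ?_
    exact emp_integral T (y n) g g.continuous
  have hNt : Tendsto (fun n => (N n : ℝ)) U atTop := by
    refine Tendsto.mono_left ?_ hU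
    refine tendsto_atTop_mono (fun n => ?_) tendsto_natCast_atTop_atTop
    exact_mod_cast (Nat.le_succ n).trans (hN n)
  have hinv : ∀ g : C(X, ℝ), ∫ z, g (T z) ∂(μ : Measure X) = ∫ z, g z ∂(μ : Measure X) := by
    intro g
    obtain ⟨R, hR⟩ : ∃ R : ℝ, ∀ y, |g y| ≤ R :=
      ⟨‖g‖, fun y => by simpa using g.norm_coe_le_norm y⟩
    have h1 := hint (g.comp ⟨T, hT⟩)
    have h2 := hint g
    have h3 : Tendsto (fun n => av T (g.comp ⟨T, hT⟩) (N n) (y n) - av T g (N n) (y n)) U (𝓝 0) := by
      refine squeeze_zero_norm (a := fun n => 2 * R / N n) (fun n => ?_) ?_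
      · rw [Real.norm_eq_abs]
        exact av_comp T g hR (hNpos n) (y n)
      · exact hNt.const_div_atTop _
    have h4 := tendsto_nhds_unique (h1.sub h2) h3
    have h5 : ∫ z, g (T z) ∂(μ : Measure X) - ∫ z, g z ∂(μ : Measure X) = 0 := h4
    linarith
  have hmap : (μ : Measure X).map T = μ := by
    have : IsProbabilityMeasure ((μ : Measure X).map T) :=
      Measure.isProbabilityMeasure_map hT.aemeasurable
    refine ext_of_forall_integral_eq_of_IsFiniteMeasure fun g => ?_
    rw [integral_map hT.aemeasurable g.continuous.aestronglyMeasurable]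
    exact hinv g.toContinuousMap
  have hμν : (μ : Measure X) = ν := huniq _ inferInstance hmap
  have h1 := hint φ
  rw [hμν] at h1
  have h2 := (Metric.tendsto_nhds.1 h1 ε hε).exists
  obtain ⟨n, hn⟩ := h2
  rw [Real.dist_eq] at hn
  exact absurd hn (not_lt.2 (hy n))

end

end Pool.Agent.Q181.WI
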